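import Pool.Agent.Helper16.AZ.Stmts

open Finset Filter MeasureTheory Topology
open scoped ComplexConjugate InnerProductSpace

namespace Pool.Agent.Helper16.AZ

open Pool.Agent.Helper16.MD (MS PB Am RW Rich)
open UnitAddTorus (mFourier)

theorem exv_int {r : ℕ} (F : T r → ℂ) (hF : Continuous F) : Integrable F (mm r) :=
  hF.integrable_of_hasCompactSupport (HasCompactSupport.of_compactSpace F)

theorem exv_norm {ι : Type} (B : Finset ι) (e : ι → ℂ) :
    ‖∑ p ∈ B, e p‖ ^ 2 = ∑ p ∈ B, ∑ p' ∈ B, (e p * conj (e p')).re := by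
  have h1 : ((‖∑ p ∈ B, e p‖ ^ 2 : ℝ) : ℂ) = (∑ p ∈ B, e p) * conj (∑ p ∈ B, e p) := by
    rw [Complex.mul_conj, Complex.normSq_eq_norm_sq]
  have h2 : ‖∑ p ∈ B, e p‖ ^ 2 = ((∑ p ∈ B, e p) * conj (∑ p ∈ B, e p)).re := by
    rw [← h1]; exact (Complex.ofReal_re _).symm
  rw [h2, map_sum, Finset.sum_mul_sum, Complex.re_sum]
  refine Finset.sum_congr rfl fun p _ => ?_
  rw [Complex.re_sum]

theorem exv_key {r : ℕ} (B : Finset ℕ) (e : ℕ → T r → ℂ) (he : ∀ p, Continuous (e p)) :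
    ∑ p ∈ B, ∑ p' ∈ B, (∫ θ, e p θ * conj (e p' θ) ∂(mm r)).re =
      ∫ θ, ‖∑ p ∈ B, e p θ‖ ^ 2 ∂(mm r) := by
  have hint : ∀ p p', Integrable (fun θ => e p θ * conj (e p' θ)) (mm r) := fun p p' =>
    exv_int _ ((he p).mul (Complex.continuous_conj.comp (he p')))
  have hre : ∀ p p', (∫ θ, e p θ * conj (e p' θ) ∂(mm r)).re =
      ∫ θ, (e p θ * conj (e p' θ)).re ∂(mm r) := by
    intro p p'
    have := integral_re (hint p p')
    simpa using this.symm
  have hre2 : ∀ p p', Integrable (fun θ => (e p θ * conj (e p' θ)).re) (mm r) := fun p p' =>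
    (hint p p').re
  have h3 : (fun θ => ‖∑ p ∈ B, e p θ‖ ^ 2) =
      fun θ => ∑ p ∈ B, ∑ p' ∈ B, (e p θ * conj (e p' θ)).re := by
    funext θ
    exact exv_norm B fun p => e p θ
  rw [h3, integral_finsetSum _ fun p _ => integrable_finsetSum _ fun p' _ => hre2 p p']
  refine Finset.sum_congr rfl fun p _ => ?_
  rw [integral_finsetSum _ fun p' _ => hre2 p p']
  exact Finset.sum_congr rfl fun p' _ => hre p p'

theorem st_EXV : ST_EXV := by
  intro r d β φ b x H B hφ hb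
  have hc : ∀ h h' p : ℕ, Continuous fun θ : T r => EE β φ b (p * h) (p * h') (x + p • θ) := by
    intro h h' p
    exact (EE_continuous β φ b hφ.1 hb _ _).comp (by fun_prop)
  simp only [GG]
  rw [Finset.sum_congr rfl fun p _ => (Finset.sum_div B _ _).symm, ← Finset.sum_div]
  congr 1
  have e1 : ∀ p ∈ B, ∑ p' ∈ B, ∑ h ∈ range H, ∑ h' ∈ range H,
      (∫ θ, EE β φ b (p * h) (p * h') (x + p • θ) *
        conj (EE β φ b (p' * h) (p' * h') (x + p' • θ)) ∂(mm r)).re =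
      ∑ h ∈ range H, ∑ h' ∈ range H, ∑ p' ∈ B,
      (∫ θ, EE β φ b (p * h) (p * h') (x + p • θ) *
        conj (EE β φ b (p' * h) (p' * h') (x + p' • θ)) ∂(mm r)).re := by
    intro p _
    rw [Finset.sum_comm]
    refine Finset.sum_congr rfl fun h _ => ?_
    rw [Finset.sum_comm]
  rw [Finset.sum_congr rfl e1, Finset.sum_comm]
  refine Finset.sum_congr rfl fun h _ => ?_
  rw [Finset.sum_comm]
  refine Finset.sum_congr rfl fun h' _ => ?_
  exact exv_key B (fun p θ => EE β φ b (p * h) (p * h') (x + p • θ)) (hc h h')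

end Pool.Agent.Helper16.AZ
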