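import Pool.Agent.Helper16.AZ.Stmts

open Finset Filter MeasureTheory Topology
open scoped ComplexConjugate InnerProductSpace

namespace Pool.Agent.Helper16.AZ

open Pool.Agent.Helper16.MD (MS PB Am RW Rich)
open UnitAddTorus (mFourier)

theorem vdh_icc {V : Type} [AddCommMonoid V] (M : ℕ) (g : ℕ → V) :
    ∑ y ∈ Icc 1 M, g y = ∑ i ∈ range M, g (i + 1) := by
  induction M with
  | zero => simp
  | succ M ih => rw [Finset.sum_Icc_succ_top (by omega), ih, Finset.sum_range_succ]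

theorem vdh_shift {V : Type} [NormedAddCommGroup V] [InnerProductSpace ℂ V] (t : ℕ → V)
    (ht : ∀ y, ‖t y‖ ≤ 1) (M h : ℕ) :
    ‖∑ y ∈ Icc 1 M, t (y + h) - ∑ y ∈ Icc 1 M, t y‖ ≤ 2 * h := by
  induction h with
  | zero => simp
  | succ h ih =>
    have h1 : ∑ y ∈ Icc 1 M, t (y + (h + 1)) - ∑ y ∈ Icc 1 M, t (y + h) =
        t (M + 1 + h) - t (0 + 1 + h) := by
      rw [vdh_icc M (fun y => t (y + (h + 1))), vdh_icc M (fun y => t (y + h)),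
        ← Finset.sum_sub_distrib, ← Finset.sum_range_sub (fun i => t (i + 1 + h))]
      refine Finset.sum_congr rfl fun i _ => ?_
      congr 2
      omega
    have h2 : ∑ y ∈ Icc 1 M, t (y + (h + 1)) - ∑ y ∈ Icc 1 M, t y =
        (t (M + 1 + h) - t (0 + 1 + h)) +
          (∑ y ∈ Icc 1 M, t (y + h) - ∑ y ∈ Icc 1 M, t y) := by
      rw [← h1]; abel
    rw [h2]
    have h3 := norm_add_le (t (M + 1 + h) - t (0 + 1 + h))
      (∑ y ∈ Icc 1 M, t (y + h) - ∑ y ∈ Icc 1 M, t y)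
    have h4 := norm_sub_le (t (M + 1 + h)) (t (0 + 1 + h))
    have h5 := ht (M + 1 + h)
    have h6 := ht (0 + 1 + h)
    push_cast
    linarith

theorem vdh_sum (H : ℕ) : ∑ h ∈ range H, (2 * (h : ℝ)) ≤ (H : ℝ) ^ 2 := by
  induction H with
  | zero => simp
  | succ H ih =>
    rw [Finset.sum_range_succ]
    push_cast
    nlinarith

theorem st_VDH : ST_VDH := by
  intro V _ _ t M H ht hH
  set S : V := ∑ y ∈ Icc 1 M, t y with hS
  set A : V := ∑ y ∈ Icc 1 M, ∑ h ∈ range H, t (y + h) with hA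
  have hA2 : A = ∑ h ∈ range H, ∑ y ∈ Icc 1 M, t (y + h) := by
    rw [hA]; exact Finset.sum_comm
  have hH0 : (1 : ℝ) ≤ H := by exact_mod_cast hH
  have hM0 : (0 : ℝ) ≤ M := Nat.cast_nonneg _
  -- the difference
  have h1 : ‖A - (H : ℂ) • S‖ ≤ (H : ℝ) ^ 2 := by
    have e : A - (H : ℂ) • S = ∑ h ∈ range H, (∑ y ∈ Icc 1 M, t (y + h) - S) := by
      rw [Finset.sum_sub_distrib, ← hA2, Finset.sum_const, Finset.card_range]
      congr 1
      exact Nat.cast_smul_eq_nsmul ℂ H S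
    rw [e]
    refine (norm_sum_le _ _).trans ((Finset.sum_le_sum fun h _ => vdh_shift t ht M h).trans ?_)
    exact vdh_sum H
  -- the norm of the inner sums
  have h2 : ∀ y, ‖∑ h ∈ range H, t (y + h)‖ ^ 2 =
      ∑ h ∈ range H, ∑ h' ∈ range H, (inner ℂ (t (y + h)) (t (y + h')) : ℂ).re := by
    intro y
    have e1 : ‖∑ h ∈ range H, t (y + h)‖ ^ 2 =
        (inner ℂ (∑ h ∈ range H, t (y + h)) (∑ h ∈ range H, t (y + h)) : ℂ).re := by
      have := inner_self_eq_norm_sq (𝕜 := ℂ) (∑ h ∈ range H, t (y + h))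
      rw [← this]; rfl
    rw [e1, sum_inner, Complex.re_sum]
    refine Finset.sum_congr rfl fun h _ => ?_
    rw [inner_sum, Complex.re_sum]
  have h3 : ‖A‖ ≤ ∑ y ∈ Icc 1 M, ‖∑ h ∈ range H, t (y + h)‖ := norm_sum_le _ _
  have h4 : (∑ y ∈ Icc 1 M, ‖∑ h ∈ range H, t (y + h)‖) ^ 2 ≤
      M * ∑ y ∈ Icc 1 M, ‖∑ h ∈ range H, t (y + h)‖ ^ 2 := by
    have := sq_sum_le_card_mul_sum_sq (s := Icc 1 M)
      (f := fun y => ‖∑ h ∈ range H, t (y + h)‖)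
    simpa using this
  have h5 : ∑ y ∈ Icc 1 M, ‖∑ h ∈ range H, t (y + h)‖ ^ 2 =
      ∑ h ∈ range H, ∑ h' ∈ range H, ∑ y ∈ Icc 1 M,
        (inner ℂ (t (y + h)) (t (y + h')) : ℂ).re := by
    rw [Finset.sum_congr rfl fun y _ => h2 y, Finset.sum_comm]
    refine Finset.sum_congr rfl fun h _ => ?_
    rw [Finset.sum_comm]
  have h6 : ‖A‖ ^ 2 ≤ M * (∑ h ∈ range H, ∑ h' ∈ range H, ∑ y ∈ Icc 1 M,
      (inner ℂ (t (y + h)) (t (y + h')) : ℂ).re) := by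
    rw [← h5]
    refine le_trans ?_ h4
    exact pow_le_pow_left₀ (norm_nonneg _) h3 2
  have h7 : ‖A‖ ≤ H * M := by
    refine h3.trans ?_
    have : ∀ y ∈ Icc 1 M, ‖∑ h ∈ range H, t (y + h)‖ ≤ (H : ℝ) := by
      intro y _
      refine (norm_sum_le _ _).trans ((Finset.sum_le_sum fun h _ => ht (y + h)).trans ?_)
      simp
    refine (Finset.sum_le_sum this).trans ?_
    simp [mul_comm]
  have h8 : (H : ℝ) * ‖S‖ ≤ ‖A‖ + (H : ℝ) ^ 2 := by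
    have e : (H : ℝ) * ‖S‖ = ‖(H : ℂ) • S‖ := by
      rw [norm_smul]; simp
    rw [e]
    have : (H : ℂ) • S = A - (A - (H : ℂ) • S) := by abel
    rw [this]
    exact (norm_sub_le _ _).trans (by linarith)
  have h9 : (H : ℝ) ^ 2 * ‖S‖ ^ 2 ≤ (‖A‖ + (H : ℝ) ^ 2) ^ 2 := by
    rw [← mul_pow]
    exact pow_le_pow_left₀ (by positivity) h8 2
  have h10 : 2 * (H : ℝ) ^ 2 * ‖A‖ ≤ 2 * (H : ℝ) ^ 3 * M := by
    have := mul_le_mul_of_nonneg_left h7 (by positivity : (0 : ℝ) ≤ 2 * (H : ℝ) ^ 2)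
    calc 2 * (H : ℝ) ^ 2 * ‖A‖ ≤ 2 * (H : ℝ) ^ 2 * (H * M) := this
      _ = 2 * (H : ℝ) ^ 3 * M := by ring
  have h11 : 0 ≤ (H : ℝ) ^ 3 * M := by positivity
  have h12 : 0 ≤ (H : ℝ) ^ 4 := by positivity
  have h13 : (‖A‖ + (H : ℝ) ^ 2) ^ 2 = ‖A‖ ^ 2 + 2 * (H : ℝ) ^ 2 * ‖A‖ + (H : ℝ) ^ 4 := by ring
  rw [h13] at h9
  linarith

end Pool.Agent.Helper16.AZ
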